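import Pool.Agent.K3h34.HP.Stm
import Pool.Agent.Y297.HB.Box
import Pool.Agent.Y994.HB.Den

/-!
# Project HP, brick DENS: from residues to integral systems in a box
-/

set_option autoImplicit false

namespace Pool.Agent.K3h34.HP

open Finset Pool.Agent.Y994.HB

attribute [local instance] Pool.Agent.Y994.HB.instFinTT Pool.Agent.Y994.HB.instFtTT

/-- the system with given coefficients -/
noncomputable def polS {R : Type} [CommRing R] {s n : ℕ} {e : Fin s → ℕ}
    (c : (Σ j : Fin s, TT n (e j + 2)) → R) (j : Fin s) : MvPolynomial (Fin (n + 1)) R :=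
  pol (fun t => c ⟨j, t⟩)

lemma polS_inj {s n : ℕ} {e : Fin s → ℕ} : Function.Injective
    (polS : ((Σ j : Fin s, TT n (e j + 2)) → ℤ) → _) := by
  intro c c' h
  funext x
  obtain ⟨j, t⟩ := x
  have h1 : pol (fun t => c ⟨j, t⟩) = pol (fun t => c' ⟨j, t⟩) := congrFun h j
  exact congrFun (pol_inj h1) t

lemma Fs_eq {s : ℕ} (n : ℕ) (e : Fin s → ℕ) (H : ℕ) :
    Fs n e H = polS '' {c : (Σ j : Fin s, TT n (e j + 2)) → ℤ | ∀ t, |c t| ≤ (H : ℤ)} := by
  ext f
  constructor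
  · intro hf
    have h1 : ∀ j, f j ∈ Pool.Agent.Y214.HB.Fm n (e j + 2) H := fun j => hf j
    simp only [Fm_eq, Set.mem_image] at h1
    choose c hc hcf using h1
    refine ⟨fun x => c x.1 x.2, fun x => hc x.1 x.2, ?_⟩
    funext j
    exact hcf j
  · rintro ⟨c, hc, rfl⟩ j
    have h1 : polS c j ∈ Pool.Agent.Y214.HB.Fm n (e j + 2) H := by
      rw [Fm_eq]
      exact ⟨fun t => c ⟨j, t⟩, fun t => hc _, rfl⟩
    exact h1

lemma boxS_eq {T : Type} [Fintype T] [DecidableEq T] (H : ℕ) :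
    {c : T → ℤ | ∀ t, |c t| ≤ (H : ℤ)} =
    ((Fintype.piFinset fun _ : T => Finset.Icc (-(H : ℤ)) H : Finset (T → ℤ)) :
      Set (T → ℤ)) := by
  ext c
  rw [mem_coe, Fintype.mem_piFinset]
  refine forall_congr' fun t => ?_
  rw [mem_Icc, abs_le]

lemma boxS_fin {T : Type} [Fintype T] (H : ℕ) : {c : T → ℤ | ∀ t, |c t| ≤ (H : ℤ)}.Finite := by
  classical
  rw [boxS_eq]
  exact finite_toSet _

lemma Fs_card {s : ℕ} (n : ℕ) (e : Fin s → ℕ) (H : ℕ) : ((Fs n e H).ncard : ℝ) =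
    (2 * (H : ℝ) + 1) ^ Fintype.card (Σ j : Fin s, TT n (e j + 2)) := by
  classical
  rw [Fs_eq, Set.ncard_image_of_injective _ polS_inj, boxS_eq, Set.ncard_coe_finset,
    Fintype.card_piFinset]
  simp only [Int.card_Icc, prod_const, card_univ]
  have h : ((H : ℤ) + 1 - -(H : ℤ)).toNat = 2 * H + 1 := by omega
  rw [h]
  push_cast
  ring

lemma testS_of_testP {s n : ℕ} {e : Fin s → ℕ} (p : ℕ)
    (c : (Σ j : Fin s, TT n (e j + 2)) → ℤ) (a : Fin (n + 1) → ℤ)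
    (h : TestP (polS (fun t => (c t : ZMod p))) (fun i => (a i : ZMod p))) :
    TestS (polS c) p a := by
  have hm : ∀ j, polS (fun t => (c t : ZMod p)) j =
      MvPolynomial.map (Int.castRingHom (ZMod p)) (polS c j) := by
    intro j
    unfold polS
    rw [map_pol]
  refine ⟨fun j => ?_, fun l hl => ?_⟩
  · have h1 := h.1 j
    rw [hm, eval_cast] at h1
    exact (CharP.intCast_eq_zero_iff (ZMod p) p _).1 h1
  · obtain ⟨j, hj⟩ := hl
    obtain ⟨i, hi⟩ := h.2 (fun j => (l j : ZMod p)) (by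
      intro h0
      exact hj ((CharP.intCast_eq_zero_iff (ZMod p) p _).1 (congrFun h0 j)))
    refine ⟨i, fun hd => hi ?_⟩
    have h2 := (CharP.intCast_eq_zero_iff (ZMod p) p _).2 hd
    rw [← h2]
    push_cast
    refine sum_congr rfl fun j _ => ?_
    rw [hm, MvPolynomial.pderiv_map, eval_cast]

theorem t_DENS : S_ALGS → S_DENS := by
  classical
  intro h2 s n e hs δ hδ ε hε
  obtain ⟨C, hC, hA⟩ := h2 s n e hs (fun j => TT n (e j + 2)) (fun j => Equiv.refl _) δ hδ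
  refine ⟨⌈2 * C / ε⌉₊ + 1, fun p hp hpp S hS => ?_⟩
  have hpF : Fact p.Prime := ⟨hpp⟩
  have hp0 : (0 : ℝ) < p := by exact_mod_cast hpp.pos
  have hCp : C / p ≤ ε / 2 := by
    have h1 : 2 * C / ε ≤ (⌈2 * C / ε⌉₊ : ℝ) := Nat.le_ceil _
    have h3 : ((⌈2 * C / ε⌉₊ + 1 : ℕ) : ℝ) ≤ p := by exact_mod_cast hp
    push_cast at h3
    have h4 : 2 * C / ε ≤ p := by linarith
    rw [div_le_iff₀ hε] at h4
    rw [div_le_iff₀ hp0]
    linarith
  -- the set of the lifted points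
  set S' : ∀ q : ℕ, Set (Fin (n + 1) → ZMod q) := fun q =>
    {a | ∃ b : Fin (n + 1) → ℤ, (fun i => (b i : ZMod q)) = a ∧ (fun i => (b i : ZMod p)) ∈ S}
    with hS'
  have hSp : S' p = S := by
    ext a
    constructor
    · rintro ⟨b, hb, hbS⟩
      rw [← hb]
      exact hbS
    · intro ha
      refine ⟨fun i => ((a i).val : ℤ), ?_, ?_⟩
      · funext i
        simp
      · have : (fun i => (((a i).val : ℤ) : ZMod p)) = a := by
          funext i
          simp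
        rw [this]
        exact ha
  obtain ⟨H₀, hH₀⟩ := Pool.Agent.Y297.HB.t_BOX (Σ j : Fin s, TT n (e j + 2)) {p}
    (fun q hq => by rw [mem_singleton] at hq; rw [hq]; exact hpp)
    (fun q => {c : (Σ j : Fin s, TT n (e j + 2)) → ZMod q | ¬ ∃ a ∈ S' q, TestP (polS c) a})
    (fun _ => C / p)
    (fun q hq => by
      rw [mem_singleton] at hq
      subst hq
      rw [hSp]
      exact hA q S hS) (ε / 2) (by positivity)
  refine ⟨H₀, fun H hH => ?_⟩
  have h3 := hH₀ H hH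
  rw [prod_singleton] at h3
  rw [Fs_card]
  have hsub : {f | f ∈ Fs n e H ∧ ¬ ∃ a : Fin (n + 1) → ℤ, (fun i => (a i : ZMod p)) ∈ S ∧
      TestS f p a} ⊆
      polS '' {c : (Σ j : Fin s, TT n (e j + 2)) → ℤ | (∀ t, |c t| ≤ (H : ℤ)) ∧
        ∀ q ∈ ({p} : Finset ℕ), (fun t => (c t : ZMod q)) ∈
          {c : (Σ j : Fin s, TT n (e j + 2)) → ZMod q | ¬ ∃ a ∈ S' q, TestP (polS c) a}} := by
    rintro f ⟨hf, hT⟩
    rw [Fs_eq] at hf
    obtain ⟨c, hc, rfl⟩ := hf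
    refine ⟨c, ⟨hc, fun q hq => ?_⟩, rfl⟩
    rw [mem_singleton] at hq
    subst hq
    rintro ⟨a, ⟨b, hb, hbS⟩, hcon⟩
    refine hT ⟨b, hbS, testS_of_testP q c b ?_⟩
    rw [hb]
    exact hcon
  have hfin : {c : (Σ j : Fin s, TT n (e j + 2)) → ℤ | (∀ t, |c t| ≤ (H : ℤ)) ∧
        ∀ q ∈ ({p} : Finset ℕ), (fun t => (c t : ZMod q)) ∈
          {c : (Σ j : Fin s, TT n (e j + 2)) → ZMod q | ¬ ∃ a ∈ S' q, TestP (polS c) a}}.Finite :=
    (boxS_fin H).subset fun c hc => hc.1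
  have h4 := Set.ncard_le_ncard hsub (hfin.image _)
  rw [Set.ncard_image_of_injective _ polS_inj] at h4
  have h5 : ((({f | f ∈ Fs n e H ∧ ¬ ∃ a : Fin (n + 1) → ℤ, (fun i => (a i : ZMod p)) ∈ S ∧
      TestS f p a} : Set _).ncard : ℕ) : ℝ) ≤ (C / p + ε / 2) *
        (2 * (H : ℝ) + 1) ^ Fintype.card (Σ j : Fin s, TT n (e j + 2)) :=
    le_trans (by exact_mod_cast h4) h3
  refine h5.trans ?_
  refine mul_le_mul_of_nonneg_right ?_ (by positivity)
  linarith

end Pool.Agent.K3h34.HP
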