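import Pool.Agent.K3h34.HP.Stm
import Pool.Agent.Y945.HB.Fac
import Pool.Agent.K3h40.HP.DENS

/-!
# Project HP, brick TSTD: tests for all the factors
-/

set_option autoImplicit false

namespace Pool.Agent.K3h34.HP

open Polynomial Filter
open Pool.Agent.Y214.HB (Obs evQ toK NoRoot Kind Cov S_BOX S_FAC S_LOC S_SCL)

attribute [local instance] Pool.Agent.Y994.HB.instFinTT Pool.Agent.Y994.HB.instFtTT

lemma evP_cast {n : ℕ} (p : ℕ) (a : Fin (n + 1) → ℤ) :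
    evP p (fun i => (a i : ZMod p)) = (Int.castRingHom (ZMod p)).comp (MvPolynomial.eval a) := by
  apply MvPolynomial.ringHom_ext
  · intro c
    simp [evP]
  · intro i
    simp [evP]

lemma obs_of_obsP {n : ℕ} (P : (MvPolynomial (Fin (n + 1)) ℤ)[X]) (p : ℕ) (a : Fin (n + 1) → ℤ)
    (h : ObsP P p (fun i => (a i : ZMod p))) : Obs P p a := by
  obtain ⟨h1, h2⟩ := h
  rw [evP_cast] at h1 h2
  refine ⟨fun hd => h1 ?_, fun w hd => h2 (w : ZMod p) ?_⟩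
  · rw [RingHom.comp_apply]
    exact (CharP.intCast_eq_zero_iff (ZMod p) p _).2 hd
  · rw [← Polynomial.map_map]
    have h3 := Polynomial.eval_intCast_map (Int.castRingHom (ZMod p)) (P.map (MvPolynomial.eval a)) w
    rw [h3]
    exact (CharP.intCast_eq_zero_iff (ZMod p) p _).2 hd

lemma Fs_finite {s : ℕ} (n : ℕ) (e : Fin s → ℕ) (H : ℕ) : (Fs n e H).Finite := by
  rw [Fs_eq]
  exact (boxS_fin H).image _

/-- the tests for finitely many polynomials -/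
theorem testsS_all (hDENS : S_DENS) (hMANY : S_MANY) {s n : ℕ} (e : Fin s → ℕ) (hs : s + 1 ≤ n) :
    ∀ (k : ℕ) (Q : Fin k → (MvPolynomial (Fin (n + 1)) ℤ)[X]), (∀ i, Kind (Q i)) →
    ∀ (m : ℕ) (ε : ℝ), 0 < ε → ∃ M H₀ : ℕ, m ≤ M ∧ ∀ H : ℕ, H₀ ≤ H →
      (({f | f ∈ Fs n e H ∧ ¬ ∃ (l : Fin k → ℕ) (a : Fin k → Fin (n + 1) → ℤ),
        Function.Injective l ∧ ∀ i, (l i).Prime ∧ m < l i ∧ l i ≤ M ∧ Obs (Q i) (l i) (a i) ∧
          TestS f (l i) (a i)} : Set _).ncard : ℝ) ≤ ε * ((Fs n e H).ncard : ℝ) := by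
  intro k
  induction k with
  | zero =>
    intro Q _ m ε hε
    refine ⟨m, 0, le_rfl, fun H _ => ?_⟩
    have h0 : ({f | f ∈ Fs n e H ∧ ¬ ∃ (l : Fin 0 → ℕ) (a : Fin 0 → Fin (n + 1) → ℤ),
        Function.Injective l ∧ ∀ i, (l i).Prime ∧ m < l i ∧ l i ≤ m ∧ Obs (Q i) (l i) (a i) ∧
          TestS f (l i) (a i)} : Set _) = ∅ := by
      rw [Set.eq_empty_iff_forall_notMem]
      rintro f ⟨-, hf⟩
      exact hf ⟨Fin.elim0, Fin.elim0, fun i => i.elim0, fun i => i.elim0⟩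
    rw [h0, Set.ncard_empty, Nat.cast_zero]
    positivity
  | succ k ih =>
    intro Q hQ m ε hε
    obtain ⟨δ, hδ, hδm⟩ := hMANY n (Q 0) (hQ 0)
    obtain ⟨p₀, hp₀⟩ := hDENS s n e hs δ hδ (ε / 2) (half_pos hε)
    obtain ⟨p, hmp, hpp, hpS⟩ := hδm (max m p₀)
    obtain ⟨H₁, hH₁⟩ := hp₀ p ((le_max_right _ _).trans hmp.le) hpp _ hpS
    have hm1 : m < p := lt_of_le_of_lt (le_max_left _ _) hmp
    obtain ⟨M₂, H₂, hM₂, hH₂⟩ := ih (fun i => Q i.succ) (fun i => hQ i.succ) p (ε / 2)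
      (half_pos hε)
    refine ⟨M₂, max H₁ H₂, hm1.le.trans hM₂, fun H hH => ?_⟩
    have h1 := hH₁ H ((le_max_left _ _).trans hH)
    have h2 := hH₂ H ((le_max_right _ _).trans hH)
    have hsub : {f | f ∈ Fs n e H ∧ ¬ ∃ (l : Fin (k + 1) → ℕ)
        (a : Fin (k + 1) → Fin (n + 1) → ℤ),
        Function.Injective l ∧ ∀ i, (l i).Prime ∧ m < l i ∧ l i ≤ M₂ ∧ Obs (Q i) (l i) (a i) ∧
          TestS f (l i) (a i)} ⊆
        {f | f ∈ Fs n e H ∧ ¬ ∃ a : Fin (n + 1) → ℤ, (fun i => (a i : ZMod p)) ∈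
          {a : Fin (n + 1) → ZMod p | ObsP (Q 0) p a} ∧ TestS f p a} ∪
        {f | f ∈ Fs n e H ∧ ¬ ∃ (l : Fin k → ℕ) (a : Fin k → Fin (n + 1) → ℤ),
        Function.Injective l ∧ ∀ i, (l i).Prime ∧ p < l i ∧ l i ≤ M₂ ∧
          Obs (Q i.succ) (l i) (a i) ∧ TestS f (l i) (a i)} := by
      rintro f ⟨hf, hno⟩
      by_contra hcon
      rw [Set.mem_union, not_or] at hcon
      obtain ⟨hc1, hc2⟩ := hcon
      have h3 : ∃ a : Fin (n + 1) → ℤ, (fun i => (a i : ZMod p)) ∈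
          {a : Fin (n + 1) → ZMod p | ObsP (Q 0) p a} ∧ TestS f p a := by
        by_contra h
        exact hc1 ⟨hf, h⟩
      have h4 : ∃ (l : Fin k → ℕ) (a : Fin k → Fin (n + 1) → ℤ),
        Function.Injective l ∧ ∀ i, (l i).Prime ∧ p < l i ∧ l i ≤ M₂ ∧
          Obs (Q i.succ) (l i) (a i) ∧ TestS f (l i) (a i) := by
        by_contra h
        exact hc2 ⟨hf, h⟩
      obtain ⟨a, ha1, ha2⟩ := h3
      obtain ⟨l, b, hl, hb⟩ := h4
      apply hno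
      refine ⟨Fin.cons p l, Fin.cons a b, ?_, ?_⟩
      · rw [Fin.cons_injective_iff]
        refine ⟨?_, hl⟩
        rintro ⟨i, hi⟩
        have := (hb i).2.1
        omega
      · intro i
        refine Fin.cases ?_ (fun i => ?_) i
        · simp only [Fin.cons_zero]
          exact ⟨hpp, hm1, hM₂, obs_of_obsP _ _ _ ha1, ha2⟩
        · simp only [Fin.cons_succ]
          exact ⟨(hb i).1, hm1.trans (hb i).2.1, (hb i).2.2.1, (hb i).2.2.2.1,
            (hb i).2.2.2.2⟩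
    have h5 := Set.ncard_le_ncard hsub
      (((Fs_finite n e H).subset (fun f hf => hf.1)).union
        ((Fs_finite n e H).subset (fun f hf => hf.1)))
    have h6 := (h5.trans (Set.ncard_union_le _ _))
    have h7 := (Nat.cast_le (α := ℝ)).mpr h6
    rw [Nat.cast_add] at h7
    linarith

theorem TestedS.mono' {s n m M M' : ℕ} {f : Fin s → MvPolynomial (Fin (n + 1)) ℤ}
    {P : (MvPolynomial (Fin (n + 1)) ℤ)[X]} (hM : M ≤ M') (h : TestedS m M f P) :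
    TestedS m M' f P := by
  obtain ⟨k, Q, c, l, a, h1, h2, h3⟩ := h
  exact ⟨k, Q, c, l, a, h1, h2, fun i => ⟨(h3 i).1, (h3 i).2.1, (h3 i).2.2.1.trans hM,
    (h3 i).2.2.2⟩⟩

theorem t_TSTD : S_DENS → S_MANY → S_TSTD := by
  intro hDENS hMANY s n e hs P hP m ε hε
  obtain ⟨k, Q, c, hprod, hK⟩ := Pool.Agent.Y945.HB.t_FAC n P hP
  obtain ⟨M, H₀, hM, hH⟩ := testsS_all hDENS hMANY e hs k Q hK m ε hε
  refine ⟨max M 2, H₀, hM.trans (le_max_left _ _), le_max_right _ _, fun H hH0 => ?_⟩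
  refine le_trans ?_ (hH H hH0)
  have hsub : {f | f ∈ Fs n e H ∧ ¬ TestedS m (max M 2) f P} ⊆
      {f | f ∈ Fs n e H ∧ ¬ ∃ (l : Fin k → ℕ) (a : Fin k → Fin (n + 1) → ℤ),
        Function.Injective l ∧ ∀ i, (l i).Prime ∧ m < l i ∧ l i ≤ M ∧ Obs (Q i) (l i) (a i) ∧
          TestS f (l i) (a i)} := by
    rintro f ⟨hf, hno⟩
    refine ⟨hf, ?_⟩
    rintro ⟨l, a, hl, h⟩
    exact hno (TestedS.mono' (le_max_left _ _) ⟨k, Q, c, l, a, hprod, hl, h⟩)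
  exact_mod_cast Set.ncard_le_ncard hsub ((Fs_finite n e H).subset (fun f hf => hf.1))

end Pool.Agent.K3h34.HP
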